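import Pool.Agent.V11105.CoechelonFour

/-!
Answer to Q1 of MP_b30f08_an (negated form): on a nuclear coechelon space a topologically ergodic
backward shift is sequentially hypercyclic.
-/

open Pool.Agent.V11105.Coechelon

theorem Pool.Agent.Results.MP_b30f08_an.NuclearErgodic.result :
    ∀ (𝕂 : Type) [RCLike 𝕂] (D : Data), D.Nuclear 𝕂 → D.TopErgodic 𝕂 → D.SeqHypercyclic 𝕂 :=
  fun _ _ D hnuc herg => D.main hnuc herg
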